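import Pool.Agent.MP_c1891a_nt.G43.Bas

/-! The relative counting statement from the absolute one. -/

set_option autoImplicit false

namespace Pool.Agent.MP_c1891a_nt.G43

open Finset Module H43

open Classical in
theorem rel_avg {ι Φ : Type} (I : Finset ι) (φ : ι → Φ) (c g : ι → ℂ)
    (hg : ∀ i ∈ I, ∀ k ∈ I, φ i = φ k → g i = g k) :
    ∑ i ∈ I, ((∑ k ∈ I with φ k = φ i, c k) / ((I.filter fun k => φ k = φ i).card : ℂ)) * g i =
      ∑ i ∈ I, c i * g i := by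
  simp only [sum_div, sum_mul, sum_filter]
  rw [sum_comm]
  refine sum_congr rfl fun k hk => ?_
  have hn : ((I.filter fun i => φ i = φ k).card : ℂ) ≠ 0 :=
    Nat.cast_ne_zero.2 (card_ne_zero_of_mem (a := k) (mem_filter.2 ⟨hk, rfl⟩))
  have : ∀ i ∈ I, (if φ k = φ i then c k else 0) / ((I.filter fun l => φ l = φ i).card : ℂ) * g i =
      if φ i = φ k then c k / ((I.filter fun i => φ i = φ k).card : ℂ) * g k else 0 := by
    intro i hi
    by_cases h : φ i = φ k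
    · rw [if_pos h.symm, if_pos h, h, hg i hi k hk h]
    · rw [if_neg (fun e => h e.symm), if_neg h, zero_div, zero_mul]
  rw [sum_congr rfl this, ← sum_filter, sum_const, nsmul_eq_mul]
  field_simp

variable {Λ : Type} [AddCommGroup Λ]

/-- the finest class sums have a size that does not depend on the point. -/
theorem rel_rho0 (S : Sys Λ) {χ : AddChar Λ ℂ} (h : ∀ l, ‖χ l‖ = 1) :
    (S.ref id).ρ χ = (S.ref id).ρ 1 := by
  classical
  refine sum_congr rfl fun j _ => ?_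
  have : (S.ref id).cs χ j = (S.ref id).cs (1 : AddChar Λ ℂ) j * χ j.2 := by
    unfold Sys.cs
    rw [sum_mul]
    refine sum_congr rfl fun i hi => ?_
    have e : (S.κ i, S.m i) = j :=
      ((@mem_filter _ _ (fun _ => Classical.propDecidable _) _ _).1 hi).2
    rw [← e]
    simp
  rw [this, norm_mul, h, mul_one]

/-- normalised coefficients. -/
theorem rel_norm (S : Sys Λ) (c : S.ι → ℂ) (h0 : 0 < ((S.wc c).ref id).ρ 1) :
    ∃ c' : S.ι → ℂ, (∀ i ∈ S.I, ‖c' i‖ ≤ 1) ∧ ∀ (X : Type) (u : Λ → X) (χ : AddChar Λ ℂ),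
      ((S.wc c').ref u).ρ χ * ((S.wc c).ref id).ρ 1 = ((S.wc c).ref u).ρ χ := by
  classical
  set r : ℝ := ((S.wc c).ref id).ρ 1 with hr
  let φ : S.ι → S.J × Λ := fun i => (S.κ i, S.m i)
  let a : S.ι → ℂ := fun i =>
    (∑ k ∈ S.I with φ k = φ i, c k) / ((S.I.filter fun k => φ k = φ i).card : ℂ)
  refine ⟨fun i => a i / r, fun i hi => ?_, fun X u χ => ?_⟩
  · have h1 : ‖∑ k ∈ S.I with φ k = φ i, c k‖ ≤ r := by
      refine le_trans (le_of_eq ?_) (((S.wc c).ref id).norm_cs_le 1 (φ i))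
      unfold Sys.cs
      congr 1
      refine sum_congr (by ext; simp [φ]) fun k _ => by simp
    have h2 : (1 : ℝ) ≤ ((S.I.filter fun k => φ k = φ i).card : ℝ) := by
      have : (S.I.filter fun k => φ k = φ i).Nonempty := ⟨i, mem_filter.2 ⟨hi, rfl⟩⟩
      exact_mod_cast card_pos.2 this
    rw [norm_div, norm_div, Complex.norm_natCast, Complex.norm_real, Real.norm_eq_abs,
      abs_of_pos h0, div_le_one h0]
    exact (div_le_self (norm_nonneg _) h2).trans h1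
  · unfold Sys.ρ
    rw [sum_mul]
    refine sum_congr rfl fun j _ => ?_
    have : ((S.wc fun i => a i / r).ref u).cs χ j * r = ((S.wc c).ref u).cs χ j := by
      have hr0 : (r : ℂ) ≠ 0 := by exact_mod_cast h0.ne'
      have k := rel_avg S.I φ c (fun i => if (S.κ i, u (S.m i)) = j then χ (S.m i) else 0)
        (fun i _ k _ e => by
          have e1 : S.κ i = S.κ k := congrArg Prod.fst e
          have e2 : S.m i = S.m k := congrArg Prod.snd e
          rw [e1, e2])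
      unfold Sys.cs
      rw [sum_mul, sum_filter, sum_filter]
      refine Eq.trans (sum_congr rfl fun i _ => ?_) (k.trans (sum_congr rfl fun i _ => ?_))
      · by_cases e : (S.κ i, u (S.m i)) = j
        · rw [if_pos e, if_pos e]
          show a i / r * χ (S.m i) * r = _
          rw [div_mul_eq_mul_div, div_mul_cancel₀ _ hr0]
          congr!
        · rw [if_neg e, if_neg e, mul_zero]
      · by_cases e : (S.κ i, u (S.m i)) = j
        · rw [if_pos e, if_pos e]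
          rfl
        · rw [if_neg e, if_neg e, mul_zero]
    rw [← this, norm_mul, Complex.norm_real, Real.norm_eq_abs, abs_of_pos h0]

/-- two characters with the same restriction differ by a character of the quotient. -/
theorem rel_fibre (W : Submodule ℤ Λ) {χ χ₁ : AddChar Λ ℂ} {N : ℕ} (h : rs W χ = rs W χ₁)
    (h1 : χ ^ N = 1) (h2 : χ₁ ^ N = 1) :
    ∃ ψ : AddChar (Λ ⧸ W) ℂ, ψ ^ N = 1 ∧ ∀ l, χ l = χ₁ l * ψ (W.mkQ l) := by
  have key : ∀ a b : Λ, W.mkQ a = W.mkQ b → χ a / χ₁ a = χ b / χ₁ b := by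
    intro a b e
    have hm : a - b ∈ W := (Submodule.Quotient.eq W).1 e
    have e1 : χ (a - b) = χ₁ (a - b) := DFunLike.congr_fun h ⟨a - b, hm⟩
    rw [← char_sub χ a b, ← char_sub χ₁ a b, e1, mul_div_mul_left _ _ (char_ne _ _)]
  have out : ∀ q : Λ ⧸ W, W.mkQ q.out = q := fun q => Submodule.Quotient.mk_out q
  let ψ : AddChar (Λ ⧸ W) ℂ :=
    { toFun := fun q => χ q.out / χ₁ q.out
      map_zero_eq_one' := by
        rw [key _ 0 (by rw [out, map_zero]), χ.map_zero_eq_one, χ₁.map_zero_eq_one, div_one]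
      map_add_eq_mul' := fun p q => by
        rw [key _ (p.out + q.out) (by rw [map_add, out, out, out]), χ.map_add_eq_mul,
          χ₁.map_add_eq_mul, mul_div_mul_comm] }
  refine ⟨ψ, ?_, fun l => ?_⟩
  · ext q
    rw [AddChar.pow_apply, AddChar.one_apply]
    show (χ q.out / χ₁ q.out) ^ N = 1
    rw [div_pow, char_pow_one h1, char_pow_one h2, div_one]
  · show χ l = χ₁ l * (χ (W.mkQ l).out / χ₁ (W.mkQ l).out)
    rw [key _ l (out _), mul_div_cancel₀ _ (char_ne _ _)]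

theorem rel_card {α β : Type} (X : Finset α) (f : α → β) (a b : ℝ) (hb : 0 ≤ b)
    (h1 : ∀ Y : Finset β, (∀ y ∈ Y, ∃ x ∈ X, f x = y) → (Y.card : ℝ) ≤ a)
    (h2 : ∀ x₁ ∈ X, ∀ Z : Finset α, (∀ x ∈ Z, x ∈ X ∧ f x = f x₁) → (Z.card : ℝ) ≤ b) :
    (X.card : ℝ) ≤ a * b := by
  classical
  rw [card_eq_sum_card_image f X]
  push_cast
  refine (sum_le_card_nsmul _ _ b fun y hy => ?_).trans ?_
  · obtain ⟨x₁, hx, rfl⟩ := mem_image.1 hy
    exact h2 x₁ hx _ fun x hx' => mem_filter.1 hx'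
  · rw [nsmul_eq_mul]
    exact mul_le_mul_of_nonneg_right (h1 _ fun y hy => mem_image.1 hy) hb

/-- the statement for one lattice. -/
def RelAt (Λ : Type) [AddCommGroup Λ] : Prop :=
  ∀ (S : Sys Λ) (ε : ℝ),
    0 < ε → ∃ A C : ℕ, ∀ (c : S.ι → ℂ) (N : ℕ) (X : Finset (AddChar Λ ℂ)), 0 < N →
      (∀ χ ∈ X, χ ^ N = 1 ∧ ∀ u : Λ →ₗ[ℤ] ℤ, u ≠ 0 →
        (S.wc c).ρ χ * ((N : ℝ) + 1) ^ A < ((S.wc c).ref u).ρ χ) →
      (X.card : ℝ) ≤ C * (N : ℝ) ^ ε

theorem rel_quo (W : Submodule ℤ Λ) (h : RelAt (Λ ⧸ W)) (S : Sys Λ) (ε : ℝ) (hε : 0 < ε) :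
    ∃ A C : ℕ, ∀ (c : S.ι → ℂ) (N : ℕ) (χ₁ : AddChar Λ ℂ) (X : Finset (AddChar Λ ℂ)), 0 < N →
      χ₁ ^ N = 1 → (∀ χ ∈ X, χ ^ N = 1 ∧ rs W χ = rs W χ₁ ∧ ∀ u : Λ →ₗ[ℤ] ℤ, u ≠ 0 →
        (S.wc c).ρ χ * ((N : ℝ) + 1) ^ A < ((S.wc c).ref u).ρ χ) →
      (X.card : ℝ) ≤ C * (N : ℝ) ^ ε := by
  classical
  obtain ⟨A, C, hAC⟩ := h (S.quo W) ε hε
  refine ⟨A, C, fun c N χ₁ X hN h1 hX => ?_⟩
  have ex : ∀ χ : X, ∃ ψ : AddChar (Λ ⧸ W) ℂ, ψ ^ N = 1 ∧ ∀ l, χ.1 l = χ₁ l * ψ (W.mkQ l) :=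
    fun χ => rel_fibre W (hX χ.1 χ.2).2.1 (hX χ.1 χ.2).1 h1
  choose ψ p1 p2 using ex
  have inj : Function.Injective ψ := fun a b e => Subtype.ext (by
    ext l
    rw [p2 a, p2 b, e])
  have := hAC (fun i => c i * χ₁ (S.m i)) N (univ.image ψ) hN (by
    intro x hx
    obtain ⟨χ, -, rfl⟩ := mem_image.1 hx
    refine ⟨p1 χ, fun u hu => ?_⟩
    have hu' : u ∘ₗ W.mkQ ≠ 0 := fun e => hu (by
      ext l
      exact LinearMap.congr_fun e l)
    have a1 := S.ρ_quo W c S.κ (p2 χ)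
    have a2 := S.ρ_quo W c (fun i => (S.κ i, u (W.mkQ (S.m i)))) (p2 χ)
    have a3 := (hX χ.1 χ.2).2.2 _ hu'
    exact lt_of_eq_of_lt (congrArg (· * ((N : ℝ) + 1) ^ A) a1) (a3.trans_eq a2.symm))
  rwa [card_image_of_injective _ inj, card_univ, Fintype.card_coe] at this

theorem rel_step (h1 : SAbs) (h2 : SSat) [Module.Free ℤ Λ] [Module.Finite ℤ Λ]
    (ih : ∀ W : Submodule ℤ Λ, Sat W → 1 ≤ finrank ℤ W → RelAt (Λ ⧸ W)) : RelAt Λ := by
  classical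
  intro S ε hε
  rcases subsingleton_or_nontrivial Λ with hs | hs
  · refine ⟨0, 1, fun c N X hN _ => ?_⟩
    have : X.card ≤ 1 := card_le_one.2 fun a _ b _ => by
      ext l
      rw [Subsingleton.elim l 0, a.map_zero_eq_one, b.map_zero_eq_one]
    have h3 : (1 : ℝ) ≤ (N : ℝ) ^ ε := Real.one_le_rpow (by exact_mod_cast hN) hε.le
    have h4 : (X.card : ℝ) ≤ 1 := by exact_mod_cast this
    simpa using h4.trans h3
  obtain ⟨⟨𝒲, w1, w2⟩, w3⟩ := h2 Λ S.ι S.I S.m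
  obtain ⟨u₀, hu₀⟩ : ∃ u : Λ →ₗ[ℤ] ℤ, u ≠ 0 := by
    obtain ⟨l, hl⟩ := exists_ne (0 : Λ)
    obtain ⟨u, hu, -⟩ := (w3 _ (sat_ker (LinearMap.id : Λ →ₗ[ℤ] Λ))).2.2.1 l (by simpa using hl)
    exact ⟨u, fun e => hu (by rw [e]; rfl)⟩
  choose a Ca ha using fun (W : Submodule ℤ Λ) (A' : ℕ) => h1 W (S.res W) (ε / 2) A' (half_pos hε)
  have hq : ∀ W : Submodule ℤ Λ, ∃ A C : ℕ, W ∈ 𝒲 → 1 ≤ finrank ℤ W →
      ∀ (c : S.ι → ℂ) (N : ℕ) (χ₁ : AddChar Λ ℂ) (X : Finset (AddChar Λ ℂ)), 0 < N →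
      χ₁ ^ N = 1 → (∀ χ ∈ X, χ ^ N = 1 ∧ rs W χ = rs W χ₁ ∧ ∀ u : Λ →ₗ[ℤ] ℤ, u ≠ 0 →
        (S.wc c).ρ χ * ((N : ℝ) + 1) ^ A < ((S.wc c).ref u).ρ χ) →
      (X.card : ℝ) ≤ C * (N : ℝ) ^ (ε / 2) := by
    intro W
    by_cases hW : W ∈ 𝒲 ∧ 1 ≤ finrank ℤ W
    · obtain ⟨A, C, h⟩ := rel_quo W (ih W (w1 W hW.1) hW.2) S (ε / 2) (half_pos hε)
      exact ⟨A, C, fun _ _ => h⟩
    · exact ⟨0, 0, fun p q => absurd ⟨p, q⟩ hW⟩
  choose b Cb hb using hq
  let B : ℕ → ℕ := fun s => Nat.rec 1 (fun _ x => x + ∑ W ∈ 𝒲, a W x) s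
  have hB : ∀ s, B (s + 1) = B s + ∑ W ∈ 𝒲, a W (B s) := fun _ => rfl
  have hBm : Monotone B := monotone_nat_of_le_succ fun s => by rw [hB]; omega
  refine ⟨B (finrank ℤ Λ) + ∑ W ∈ 𝒲, b W, ∑ W ∈ 𝒲, Ca W (B (finrank ℤ W - 1)) * Cb W,
    fun c N X hN hX => ?_⟩
  rcases X.eq_empty_or_nonempty with rfl | ⟨χ₀, hχ₀⟩
  · rw [card_empty, Nat.cast_zero]
    positivity
  have hN1 : (1 : ℝ) ≤ (N : ℝ) + 1 := by linarith [Nat.cast_nonneg (α := ℝ) N]
  have hnorm : ∀ χ ∈ X, ∀ l, ‖χ l‖ = 1 := fun χ h => char_norm (fin_of_pow hN (hX χ h).1)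
  set r : ℝ := ((S.wc c).ref id).ρ 1 with hr
  have hle : ∀ χ ∈ X, (S.wc c).ρ χ * ((N : ℝ) + 1) ^ (B (finrank ℤ Λ) + ∑ W ∈ 𝒲, b W) < r := by
    intro χ h
    refine ((hX χ h).2 u₀ hu₀).trans_le ?_
    rw [hr, ← rel_rho0 _ (hnorm χ h)]
    exact (S.wc c).ρ_ref_le u₀ id (fun i _ k _ e => congrArg u₀ e) χ
  have h0 : 0 < r := lt_of_le_of_lt (mul_nonneg (Sys.ρ_nonneg _ _) (by positivity)) (hle χ₀ hχ₀)
  obtain ⟨c', n1, n2⟩ := rel_norm S c h0
  rw [← hr] at n2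
  let P : Submodule ℤ Λ → AddChar Λ ℂ → Prop := fun W χ => 1 ≤ finrank ℤ W ∧
    ((S.res W).wc c').ρ (rs W χ) * ((N : ℝ) + 1) ^ a W (B (finrank ℤ W - 1)) ≤ 1 ∧
      ∀ u : W →ₗ[ℤ] ℤ, u ≠ 0 →
        1 ≤ (((S.res W).wc c').ref u).ρ (rs W χ) * ((N : ℝ) + 1) ^ B (finrank ℤ W - 1)
  have cover : ∀ χ ∈ X, ∃ W ∈ 𝒲, P W χ := by
    intro χ hχ
    have ex : (𝒲.filter fun W : Submodule ℤ Λ =>
        ((S.wc c').ref W.mkQ).ρ χ * ((N : ℝ) + 1) ^ B (finrank ℤ W) ≤ 1).Nonempty := by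
      obtain ⟨W, k1, -, k3⟩ := w2 ⊤ (fun _ _ _ _ => Submodule.mem_top)
      refine ⟨W, mem_filter.2 ⟨k1, le_of_mul_le_mul_right ?_ h0⟩⟩
      have e : ((S.wc c).ref W.mkQ).ρ χ ≤ (S.wc c).ρ χ :=
        (S.wc c).ρ_re_le (fun i => (S.κ i, W.mkQ (S.m i))) S.κ (fun i hi k hk e =>
          Prod.ext e ((Submodule.Quotient.eq W).2 (k3 i hi k hk Submodule.mem_top))) χ
      rw [mul_right_comm, n2, one_mul]
      refine le_trans (mul_le_mul e (pow_le_pow_right₀ hN1 ?_) (by positivity)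
        (Sys.ρ_nonneg _ _)) (hle χ hχ).le
      exact (hBm (Submodule.finrank_le W)).trans (Nat.le_add_right _ _)
    obtain ⟨W, hW, hmin⟩ := exists_min_image _ (fun W : Submodule ℤ Λ => finrank ℤ W) ex
    obtain ⟨k1, k2⟩ := mem_filter.1 hW
    have hs : 1 ≤ finrank ℤ W := by
      by_contra hc
      have z : finrank ℤ W = 0 := by omega
      have hbot : W = ⊥ := Submodule.finrank_eq_zero.1 z
      have e : ((S.wc c').ref id).ρ χ ≤ ((S.wc c').ref W.mkQ).ρ χ :=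
        (S.wc c').ρ_ref_le id W.mkQ (fun i _ k _ e => by
          have := (Submodule.Quotient.eq W).1 e
          rw [hbot, Submodule.mem_bot] at this
          exact sub_eq_zero.1 this) χ
      have e2 : ((S.wc c').ref id).ρ χ = 1 := by
        apply mul_right_cancel₀ h0.ne'
        rw [n2, one_mul, hr]
        exact rel_rho0 _ (hnorm χ hχ)
      have e3 : B 0 = 1 := rfl
      rw [z, e3, pow_one] at k2
      have : (1 : ℝ) ≤ N := by exact_mod_cast hN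
      nlinarith
    refine ⟨W, k1, hs, ?_, fun u hu => ?_⟩
    · have e := (S.wc c').ρ_res W (hnorm χ hχ)
      refine le_trans (mul_le_mul e.le (pow_le_pow_right₀ hN1 ?_) (by positivity)
        (Sys.ρ_nonneg _ _)) k2
      have e2 := hB (finrank ℤ W - 1)
      rw [Nat.sub_add_cancel hs] at e2
      have := single_le_sum (f := fun W' => a W' (B (finrank ℤ W - 1))) (fun _ _ => Nat.zero_le _) k1
      omega
    · have hV : Sat ((LinearMap.ker u).map W.subtype) := by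
        rintro k l hk ⟨x, hx, e⟩
        have hl : l ∈ W := w1 W k1 k l hk (e ▸ x.2)
        refine ⟨⟨l, hl⟩, sat_ker u k _ hk ?_, rfl⟩
        have : k • (⟨l, hl⟩ : W) = x := Subtype.ext e.symm
        rw [this]
        exact hx
      obtain ⟨W', m1, m2, m3⟩ := w2 _ hV
      have hlt : finrank ℤ W' < finrank ℤ W := by
        refine lt_of_le_of_lt (Submodule.finrank_mono m2) ?_
        rw [Submodule.finrank_map_subtype_eq]
        exact ((h2 W Unit ∅ fun _ => 0).2 _ (sat_ker u)).2.2.2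
          fun e => hu (LinearMap.ker_eq_top.1 e)
      have hW' : 1 < ((S.wc c').ref W'.mkQ).ρ χ * ((N : ℝ) + 1) ^ B (finrank ℤ W') := by
        by_contra hc
        exact absurd (hmin W' (mem_filter.2 ⟨m1, not_lt.1 hc⟩)) (not_le.2 hlt)
      have e := (S.wc c').ρ_res_re W (hnorm χ hχ)
        (fun i => ((S.κ i, W.mkQ (S.m i)), u ((S.res W).m i)))
        (fun i _ k _ e => congrArg (fun p => p.1.2) e)
      have e2 : ((S.wc c').ref W'.mkQ).ρ χ ≤ ((S.wc c').re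
          (fun i => ((S.κ i, W.mkQ (S.m i)), u ((S.res W).m i)))).ρ χ := by
        refine (S.wc c').ρ_re_le (fun i => (S.κ i, W'.mkQ (S.m i))) _ (fun i hi k hk e => ?_) χ
        have e1 : S.κ i = S.κ k := congrArg (fun p => p.1.1) e
        have e2 : W.mkQ (S.m i) = W.mkQ (S.m k) := congrArg (fun p => p.1.2) e
        have e3 : u ((S.res W).m i) = u ((S.res W).m k) := congrArg Prod.snd e
        refine Prod.ext e1 ((Submodule.Quotient.eq W').2 (m3 i hi k hk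
          ⟨(S.res W).m i - (S.res W).m k, ?_, ?_⟩))
        · show u _ = 0
          rw [map_sub, e3, sub_self]
        · show S.m i - (W.mkQ (S.m i)).out - (S.m k - (W.mkQ (S.m k)).out) = _
          rw [e2]
          abel
      refine hW'.le.trans (mul_le_mul (e2.trans e.ge) (pow_le_pow_right₀ hN1 (hBm (by omega)))
        (by positivity) (Sys.ρ_nonneg _ _))
  have hsub : X ⊆ 𝒲.biUnion fun W => X.filter (P W) := fun χ hχ => by
    obtain ⟨W, k1, k2⟩ := cover χ hχ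
    exact mem_biUnion.2 ⟨W, k1, mem_filter.2 ⟨hχ, k2⟩⟩
  have hc : (X.card : ℝ) ≤ ∑ W ∈ 𝒲, ((X.filter (P W)).card : ℝ) := by
    exact_mod_cast (card_le_card hsub).trans card_biUnion_le
  refine hc.trans ?_
  push_cast
  rw [sum_mul]
  refine sum_le_sum fun W hW => ?_
  have hN0 : (0 : ℝ) < N := by exact_mod_cast hN
  have e : (Ca W (B (finrank ℤ W - 1)) : ℝ) * Cb W * (N : ℝ) ^ ε =
      (Ca W (B (finrank ℤ W - 1)) * (N : ℝ) ^ (ε / 2)) * (Cb W * (N : ℝ) ^ (ε / 2)) := by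
    rw [mul_mul_mul_comm, ← Real.rpow_add hN0, add_halves]
  rw [e]
  refine rel_card _ (rs W) _ _ (by positivity) (fun Y hY => ?_) fun χ₁ k1 Z hZ => ?_
  · refine ha W _ c' N Y n1 hN fun y hy => ?_
    obtain ⟨χ, k, rfl⟩ := hY y hy
    obtain ⟨k1, -, k2⟩ := mem_filter.1 k
    refine ⟨?_, k2⟩
    rw [← rs_pow, (hX χ k1).1]
    ext
    simp
  · obtain ⟨k2, k3, -⟩ := mem_filter.1 k1
    refine hb W hW k3 c N χ₁ Z hN (hX χ₁ k2).1 fun χ hχ => ?_
    have k4 := (mem_filter.1 (hZ χ hχ).1).1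
    refine ⟨(hX χ k4).1, (hZ χ hχ).2, fun u hu => lt_of_le_of_lt ?_ ((hX χ k4).2 u hu)⟩
    refine mul_le_mul_of_nonneg_left (pow_le_pow_right₀ hN1 ?_) (Sys.ρ_nonneg _ _)
    have := single_le_sum (f := b) (fun _ _ => Nat.zero_le _) hW
    omega

theorem sRel (h1 : SAbs) (h2 : SSat) : SRel := by
  have key : ∀ (n : ℕ) (Λ : Type) [AddCommGroup Λ] [Module.Free ℤ Λ] [Module.Finite ℤ Λ],
      finrank ℤ Λ = n → RelAt Λ := by
    intro n
    induction n using Nat.strong_induction_on with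
    | _ n ih =>
      intro Λ _ _ _ hn
      refine rel_step h1 h2 fun W hW hs => ?_
      obtain ⟨k1, k2, -⟩ := (h2 Λ Unit ∅ fun _ => 0).2 W hW
      exact ih _ (by omega) (Λ ⧸ W) rfl
  intro Λ _ _ _
  exact key _ Λ rfl

end Pool.Agent.MP_c1891a_nt.G43
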